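import Pool.Agent.Helper17.Trs.Defs

/-! General facts on independent sets of coordinates, transversality and stabilizers. -/

namespace Trs.H9

open MvPolynomial Trs

variable {n : ℕ} {p : Ideal (Rg n)}

theorem Ind.mono {I J : Finset (Fin n)} (h : Ind p J) (hIJ : I ⊆ J) : Ind p I :=
  fun f hf hp => h f (hf.trans hIJ) hp

theorem ind_empty (hp : p ≠ ⊤) : Ind p ∅ := by
  intro f hf hfp
  have h1 : f.vars = ∅ := Finset.subset_empty.mp hf
  obtain ⟨c, rfl⟩ : ∃ c, f = C c := ⟨_, vars_eq_empty_iff_eq_C.mp h1⟩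
  by_contra hc
  have hc0 : c ≠ 0 := fun h => hc (by rw [h, C_0])
  apply hp
  rw [Ideal.eq_top_iff_one]
  have h2 := p.mul_mem_left (C c⁻¹) hfp
  rwa [← C_mul, inv_mul_cancel₀ hc0, C_1] at h2

theorem ind_univ_bot (h : Ind p Finset.univ) : p = ⊥ := by
  rw [eq_bot_iff]
  intro f hf
  rw [Ideal.mem_bot]
  exact h f (Finset.subset_univ _) hf

/-- extension to a basis -/
theorem exists_bas {I : Finset (Fin n)} (h : Ind p I) : ∃ J, I ⊆ J ∧ Bas p J := by
  classical
  obtain ⟨J, hJ, hmax⟩ := Finset.exists_max_image (Finset.univ.filter fun J : Finset (Fin n) => I ⊆ J ∧ Ind p J)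
    Finset.card ⟨I, by simp [h]⟩
  simp only [Finset.mem_filter, Finset.mem_univ, true_and] at hJ hmax
  refine ⟨J, hJ.1, hJ.2, fun i hi hI => ?_⟩
  have h1 := hmax (insert i J) ⟨hJ.1.trans (Finset.subset_insert _ _), hI⟩
  rw [Finset.card_insert_of_notMem hi] at h1
  omega

/-- all bases have the same size -/
theorem card_bas (hT : S_Tdim) (hp : p.IsPrime) {I J : Finset (Fin n)} (hI : Bas p I) (hJ : Bas p J) : I.card = J.card := by
  have h1 := hT n p hp I hI
  have h2 := hT n p hp J hJ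
  have h3 : p.height ≠ ⊤ := by
    intro h
    rw [h] at h1
    simp at h1
  rw [← h2] at h1
  have h4 := ENat.add_right_injective_of_ne_top h3 h1
  exact_mod_cast h4

theorem card_le (hT : S_Tdim) (hp : p.IsPrime) {I J : Finset (Fin n)} (hI : Ind p I) (hJ : Bas p J) : I.card ≤ J.card := by
  obtain ⟨K, hK1, hK2⟩ := exists_bas hI
  rw [← card_bas hT hp hK2 hJ]
  exact Finset.card_le_card hK1

/-- an independent set of the right size is a basis -/
theorem bas_of_card (hT : S_Tdim) (hp : p.IsPrime) {I J : Finset (Fin n)} (hI : Ind p I) (hJ : Bas p J) (h : J.card ≤ I.card) :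
    Bas p I := by
  obtain ⟨K, hK1, hK2⟩ := exists_bas hI
  have h1 := card_bas hT hp hK2 hJ
  have h2 : I = K := Finset.eq_of_subset_of_card_le hK1 (by omega)
  rw [h2]; exact hK2

/-- extension of an independent set to a basis of the right size -/
theorem exists_bas_card (hT : S_Tdim) (hp : p.IsPrime) {I J : Finset (Fin n)} (hI : Ind p I) (hJ : Bas p J) :
    ∃ K, I ⊆ K ∧ Bas p K ∧ K.card = J.card := by
  obtain ⟨K, hK1, hK2⟩ := exists_bas hI
  exact ⟨K, hK1, hK2, card_bas hT hp hK2 hJ⟩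

variable {tor : Fin n → Bool}

theorem notMem_of_ev (hk : p ≤ RingHom.ker (ev tor 0)) {f : Rg n} (h : ev tor 0 f ≠ 0) : f ∉ p := fun hf => h (hk hf)

theorem ne_top_of_ker (hk : p ≤ RingHom.ker (ev tor 0)) : p ≠ ⊤ := by
  intro h
  have : (1 : Rg n) ∉ p := notMem_of_ev hk (by simp)
  exact this (by rw [h]; trivial)

@[simp] theorem ev_zero_X (i : Fin n) : ev tor 0 (X i) = if tor i then 1 else 0 := by
  unfold ev
  rw [aeval_X]
  simp

theorem dr_X (w : Fin n → ℂ) (i : Fin n) : dr tor w (X i) = if tor i then C (w i) * X i else C (w i) := by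
  unfold dr
  rw [mkDerivation_X]

theorem dr_X_add {w : Fin n → ℂ} {i : Fin n} (h : tor i = false) : dr tor w (X i) = C (w i) := by
  rw [dr_X, h]; simp

theorem dr_X_tor {w : Fin n → ℂ} {i : Fin n} (h : tor i = true) : dr tor w (X i - 1 : Rg n) = C (w i) * X i := by
  rw [map_sub, dr_X, h]; simp

theorem tr_X_add {v : Fin n → ℂ} {i : Fin n} (h : tor i = false) : tr tor v (X i) = X i + C (v i) := by
  unfold tr
  rw [aeval_X, h]; simp

theorem tr_X_tor {v : Fin n → ℂ} {i : Fin n} (h : tor i = true) : tr tor v (X i) = C (Complex.exp (v i)) * X i := by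
  unfold tr
  rw [aeval_X, h]; simp

theorem C_mem {c : ℂ} (hp : p ≠ ⊤) (h : (C c : Rg n) ∈ p) : c = 0 := by
  by_contra hc
  apply hp
  rw [Ideal.eq_top_iff_one]
  have h2 := p.mul_mem_left (C c⁻¹) h
  rwa [← C_mul, inv_mul_cancel₀ hc, C_1] at h2

/-- additive coordinate in `p` -/
theorem stb_add (hp : p ≠ ⊤) {v : Fin n → ℂ} (hv : Stb tor p v) {i : Fin n} (h : tor i = false) (hi : (X i : Rg n) ∈ p) : v i = 0 := by
  have h1 := (hv _).mp hi
  rw [tr_X_add h] at h1
  have h2 := p.sub_mem h1 hi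
  rw [add_sub_cancel_left] at h2
  exact C_mem hp h2

/-- multiplicative coordinate in `p` -/
theorem stb_tor (hp : p ≠ ⊤) {v : Fin n → ℂ} (hv : Stb tor p v) {i : Fin n} (h : tor i = true) (hi : (X i - 1 : Rg n) ∈ p) :
    Complex.exp (v i) = 1 := by
  have h1 := (hv _).mp hi
  rw [map_sub, map_one, tr_X_tor h] at h1
  have h2 := p.sub_mem h1 (p.mul_mem_left (C (Complex.exp (v i))) hi)
  rw [show C (Complex.exp (v i)) * X i - 1 - C (Complex.exp (v i)) * (X i - 1) = (C (Complex.exp (v i) - 1) : Rg n) by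
    rw [C_sub, C_1]; ring] at h2
  exact sub_eq_zero.mp (C_mem hp h2)

theorem re_of_exp {z : ℂ} (h : Complex.exp z = 1) : z.re = 0 := by
  have h1 := congrArg (fun x => ‖x‖) h
  simp only [Complex.norm_exp, norm_one] at h1
  exact Real.exp_eq_one_iff _ |>.mp h1

theorem wt_two (hk : p ≤ RingHom.ker (ev tor 0)) {w1 w2 : Fin n → ℂ} {z z' : Rg n} (hz : z ∈ p) (hz' : z' ∈ p)
    (h : ev tor 0 (dr tor w1 z * dr tor w2 z' - dr tor w2 z * dr tor w1 z') ≠ 0) : Wt tor w1 w2 p 2 :=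
  ⟨z, hz, z', hz', notMem_of_ev hk h⟩

theorem not_wt_one {w1 w2 : Fin n → ℂ} (h : ¬ Wt tor w1 w2 p 1) : Dst tor w1 p ∧ Dst tor w2 p := by
  constructor
  · intro f hf
    by_contra hn
    exact h ⟨f, hf, Or.inl hn⟩
  · intro f hf
    by_contra hn
    exact h ⟨f, hf, Or.inr hn⟩

theorem not_free {m : ℕ} {γ : Fin m → Fin n → ℂ} {Ax : Finset (Fin m)} (h : ¬ Free tor γ p Ax) :
    ∃ g : Fin m → ℤ, (∀ k, k ∉ Ax → g k = 0) ∧ Stb tor p (gp γ g) ∧ g ≠ 0 := by
  by_contra hno
  apply h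
  intro g h1 h2
  by_contra h3
  exact hno ⟨g, h1, h2, h3⟩

theorem free_empty {m : ℕ} {γ : Fin m → Fin n → ℂ} : Free tor γ p (∅ : Finset (Fin m)) := by
  intro g hg _
  funext k
  exact hg k (Finset.notMem_empty k)

end Trs.H9
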